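import Pool.Agent.H58.SF.Targets

set_option autoImplicit false

namespace Pool.Agent.H21.SF

open Pool.Agent.H68.BP Pool.Agent.H58.SF

open Classical in
/-- the binary minor given by a set of coordinates -/
noncomputable def bin {S T I : Type} (f : (I → S) → T) (X : Set I) : S × S → T :=
  fun p => f (fun i => if i ∈ X then p.1 else p.2)

/-- three sets of coordinates with the same binary minor give an Olšák function -/
theorem olsak_of {σ : Sig} {S T : Type} (𝕊 : Str σ S) (𝕋 : Str σ T) {I : Type}
    (f : (I → S) → T) (hf : IsPoly 𝕊 𝕋 f) (X Y W : Set I)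
    (h1 : ∀ i, ¬ (i ∈ X ∧ i ∈ Y ∧ i ∈ W)) (h2 : ∀ i, i ∈ X ∨ i ∈ Y ∨ i ∈ W)
    (hXY : bin f X = bin f Y) (hYW : bin f Y = bin f W) : HasOlsak 𝕊 𝕋 := by
  classical
  set pat : I → Fin 6 := fun i => if i ∈ X then (if i ∈ Y then 0 else if i ∈ W then 1 else 5)
    else (if i ∈ Y then (if i ∈ W then 2 else 4) else 3) with hpat
  refine ⟨fun s => f (fun i => s (pat i)), ?_, ?_⟩
  · intro l x hx
    exact hf l (fun i => x (pat i)) (fun i => hx (pat i))
  · intro x y
    have e1 : (fun i => (![x, x, y, y, y, x] : Fin 6 → S) (pat i)) =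
        fun i => if i ∈ X then x else y := by
      funext i
      simp only [hpat]
      by_cases hX : i ∈ X <;> by_cases hY : i ∈ Y <;> by_cases hW : i ∈ W <;> simp [hX, hY, hW]
    have e2 : (fun i => (![x, y, x, y, x, y] : Fin 6 → S) (pat i)) =
        fun i => if i ∈ Y then x else y := by
      funext i
      simp only [hpat]
      by_cases hX : i ∈ X <;> by_cases hY : i ∈ Y <;> by_cases hW : i ∈ W <;> simp [hX, hY, hW]
    have e3 : (fun i => (![y, x, x, x, y, y] : Fin 6 → S) (pat i)) =
        fun i => if i ∈ W then x else y := by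
      funext i
      have h1i := h1 i
      have h2i := h2 i
      simp only [hpat]
      by_cases hX : i ∈ X <;> by_cases hY : i ∈ Y <;> by_cases hW : i ∈ W <;>
        simp [hX, hY, hW] at h1i h2i ⊢
    have g1 := congrFun hXY (x, y)
    have g2 := congrFun hYW (x, y)
    simp only [bin] at g1 g2
    refine ⟨?_, ?_⟩
    · change f (fun i => (![x, x, y, y, y, x] : Fin 6 → S) (pat i)) =
        f (fun i => (![x, y, x, y, x, y] : Fin 6 → S) (pat i))
      rw [e1, e2]
      exact g1
    · change f (fun i => (![x, y, x, y, x, y] : Fin 6 → S) (pat i)) =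
        f (fun i => (![y, x, x, x, y, y] : Fin 6 → S) (pat i))
      rw [e2, e3]
      exact g2

/-- [OS] -/
theorem pf_OS (hTK : T_TK) : T_OS := by
  classical
  intro σ S T 𝕊 𝕋 hS hT hno
  have : Finite (S × S → T) := inferInstance
  obtain ⟨m, ⟨κ⟩⟩ := Finite.exists_equiv_fin (S × S → T)
  -- sizes
  let s : ℕ → ℕ := fun q => (m + 3) ^ q
  have hs_mono : ∀ q q', q ≤ q' → s q ≤ s q' := fun q q' h =>
    Nat.pow_le_pow_right (by omega) h
  let Q0 : Finset (Fin m) → (I : Type) → ((I → S) → T) → Set (Set I) := fun C I f =>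
    {Z | Z.Nonempty ∧ Z.ncard ≤ s C.card ∧ ∀ X, Z ⊆ X → κ (bin f X) ∉ C}
  set k := Fintype.card (Finset (Fin m)) with hk
  let e : Fin k ≃ Finset (Fin m) := (Fintype.equivFin _).symm
  refine ⟨k, s m + m + 1, fun c => Q0 (e c), ?_, ?_, ?_⟩
  · intro c I _ f _ X hX
    refine ⟨hX.1, hX.2.1.trans ?_⟩
    have h1 : (e c).card ≤ m := by
      have := Finset.card_le_univ (e c)
      simpa using this
    have := hs_mono _ _ h1
    omega
  · intro c I J _ _ π f _ X hX
    refine ⟨hX.1.image π, (Set.ncard_image_le (Set.toFinite X)).trans hX.2.1, ?_⟩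
    intro Y hY
    have h1 := hX.2.2 (π ⁻¹' Y) (fun i hi => hY ⟨i, hi, rfl⟩)
    have h2 : bin (minor π f) Y = bin f (π ⁻¹' Y) := by
      funext p
      simp only [bin, minor, Set.mem_preimage]
    rw [h2]
    exact h1
  · intro I _ _ f hf
    -- a maximal set of colours
    have hemp : (Q0 ∅ I f).Nonempty := by
      obtain ⟨i⟩ := ‹Nonempty I›
      refine ⟨{i}, Set.singleton_nonempty i, ?_, ?_⟩
      · simp [s]
      · simp
    obtain ⟨C, hC1, hC2⟩ : ∃ C : Finset (Fin m), (Q0 C I f).Nonempty ∧
        ∀ C' : Finset (Fin m), (Q0 C' I f).Nonempty → C'.card ≤ C.card := by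
      have hfin : ((Finset.univ : Finset (Finset (Fin m))).filter
          (fun C => (Q0 C I f).Nonempty)).Nonempty := ⟨∅, by simp [hemp]⟩
      obtain ⟨C, hC, hmax⟩ := Finset.exists_max_image _ (fun C : Finset (Fin m) => C.card) hfin
      refine ⟨C, (Finset.mem_filter.1 hC).2, fun C' hC' => hmax C' ?_⟩
      rw [Finset.mem_filter]
      exact ⟨Finset.mem_univ _, hC'⟩
    refine ⟨e.symm C, ?_, ?_⟩
    · change (Q0 (e (e.symm C)) I f).Nonempty
      rw [e.apply_symm_apply]
      exact hC1
    · change ¬ HasDisj (Q0 (e (e.symm C)) I f) (s m + m + 1 + 1)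
      rw [e.apply_symm_apply]
      rintro ⟨X, hX, hXd⟩
      -- the first `m + 2` members
      have hlt : ∀ j : Fin (m + 2), j.1 < s m + m + 1 + 1 := fun j => by
        have h1 := j.2
        have h2 : 1 ≤ s m := Nat.one_le_pow _ _ (by omega)
        omega
      let Z : Fin (m + 2) → Set I := fun j => X ⟨j.1, hlt j⟩
      have hZ : ∀ j, Z j ∈ Q0 C I f := fun j => hX _
      have hZd : ∀ j j', j ≠ j' → Disjoint (Z j) (Z j') := by
        intro j j' hjj
        refine hXd _ _ ?_
        intro h
        exact hjj (Fin.ext (Fin.mk.inj_iff.1 h))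
      obtain ⟨A, B, hAB, hφ, hφC, hcard⟩ := hTK I m (s C.card) (fun X => κ (bin f X)) C Z
        (fun j => (hZ j).1) (fun j => (hZ j).2.1) hZd (fun j X hX => (hZ j).2.2 X hX)
      have hC3 := hC2 (insert (κ (bin f A)) C) ?_
      · rw [Finset.card_insert_of_notMem hφC] at hC3
        omega
      · refine ⟨(A ∪ B)ᶜ ∪ Z 0, ?_, ?_, ?_⟩
        · obtain ⟨i, hi⟩ := (hZ 0).1
          exact ⟨i, Or.inr hi⟩
        · rw [Finset.card_insert_of_notMem hφC]
          have h1 := Set.ncard_union_le (A ∪ B)ᶜ (Z 0)
          have h2 := (hZ 0).2.1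
          have h3 : s (C.card + 1) = (m + 3) * s C.card := by
            simp only [s]
            rw [pow_succ]
            ring
          rw [h3]
          nlinarith
        · intro W hW hmem
          rw [Finset.mem_insert] at hmem
          rcases hmem with h | h
          · apply hno
            refine olsak_of 𝕊 𝕋 f hf A B W ?_ ?_ (κ.injective hφ) (κ.injective (hφ.symm.trans h.symm))
            · rintro i ⟨hiA, hiB, -⟩
              exact Set.disjoint_left.1 hAB hiA hiB
            · intro i
              by_cases hiA : i ∈ A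
              · exact Or.inl hiA
              · by_cases hiB : i ∈ B
                · exact Or.inr (Or.inl hiB)
                · refine Or.inr (Or.inr (hW (Or.inl ?_)))
                  rw [Set.mem_compl_iff, Set.mem_union]
                  rintro (h' | h')
                  exacts [hiA h', hiB h']
          · exact (hZ 0).2.2 W (fun i hi => hW (Or.inr hi)) h

end Pool.Agent.H21.SF
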