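import Pool.Agent.H58.SF.Targets
import Pool.Agent.H41.ENL.Tucker

set_option autoImplicit false

namespace Pool.Agent.H21.SF

open Pool.Agent.H58.SF

/-- the abstract combinatorial part -/
theorem tuck_core (n s k : ℕ) (hk : 1 ≤ k) (hn1 : 2 * k + s ≤ n) (hn2 : n ≤ 2 * k + s + 1)
    (bl : Finset (Fin n)) (hbl : s + 2 ≤ bl.card) (ix : Finset (Fin n) → ℕ)
    (hix : ∀ X, (∃ a ∈ X, a ∈ bl) → ix X < s)
    (hfail : ∀ X Y : Finset (Fin n), Disjoint X Y → (∃ a ∈ X, a ∈ bl) → (∃ a ∈ Y, a ∈ bl) →
      k ≤ X.card → k ≤ Y.card → ix X ≠ ix Y) : False := by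
  classical
  -- the weight of a set
  set R : Finset (Fin n) → ℕ := fun X => if ∃ a ∈ X, a ∈ bl then 2 + ix X else 1 with hR
  set kap : Finset (Fin n) → ℕ := fun A =>
    (A.powerset.filter (fun X => k ≤ X.card)).sup R with hkap
  have hkap_mono : ∀ A A' : Finset (Fin n), A ⊆ A' → kap A ≤ kap A' := by
    intro A A' h
    refine Finset.sup_mono ?_
    intro X hX
    rw [Finset.mem_filter, Finset.mem_powerset] at *
    exact ⟨hX.1.trans h, hX.2⟩
  have hkap_le : ∀ A, kap A ≤ s + 1 := by
    intro A
    refine Finset.sup_le fun X _ => ?_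
    simp only [hR]
    split_ifs with h
    · have := hix X h
      omega
    · omega
  have hkap_pos : ∀ A, k ≤ A.card → 1 ≤ kap A := by
    intro A hA
    have h1 : R A ≤ kap A := Finset.le_sup (f := R) (by
      rw [Finset.mem_filter, Finset.mem_powerset]
      exact ⟨Finset.Subset.refl _, hA⟩)
    refine le_trans ?_ h1
    simp only [hR]
    split_ifs <;> omega
  have hkap_wit : ∀ A, 1 ≤ kap A → ∃ X, X ⊆ A ∧ k ≤ X.card ∧ R X = kap A := by
    intro A hA
    have hne : (A.powerset.filter (fun X => k ≤ X.card)).Nonempty := by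
      rw [Finset.nonempty_iff_ne_empty]
      intro h
      simp only [hkap, h, Finset.sup_empty] at hA
      simp at hA
    obtain ⟨X, hX, hX2⟩ := Finset.exists_mem_eq_sup _ hne R
    rw [Finset.mem_filter, Finset.mem_powerset] at hX
    exact ⟨X, hX.1, hX.2, hX2.symm⟩
  -- the two weights differ
  have hdiff : ∀ A B : Finset (Fin n), Disjoint A B → 2 * k ≤ (A ∪ B).card + 1 →
      kap A ≠ kap B := by
    intro A B hAB hcard heq
    have hc : (A ∪ B).card = A.card + B.card := Finset.card_union_of_disjoint hAB
    have hpos : 1 ≤ kap A := by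
      by_contra h0
      have h1 : ¬ k ≤ A.card := fun h => h0 (hkap_pos A h)
      have h2 : ¬ k ≤ B.card := fun h => h0 (heq ▸ hkap_pos B h)
      omega
    have hposB : 1 ≤ kap B := heq ▸ hpos
    obtain ⟨X, hXA, hXk, hXR⟩ := hkap_wit A hpos
    obtain ⟨Y, hYB, hYk, hYR⟩ := hkap_wit B hposB
    have hXY : Disjoint X Y := Disjoint.mono hXA hYB hAB
    by_cases hXb : ∃ a ∈ X, a ∈ bl
    · by_cases hYb : ∃ a ∈ Y, a ∈ bl
      · have h1 : R X = 2 + ix X := if_pos hXb
        have h2 : R Y = 2 + ix Y := if_pos hYb
        exact hfail X Y hXY hXb hYb hXk hYk (by omega)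
      · have h1 : R X = 2 + ix X := if_pos hXb
        have h2 : R Y = 1 := if_neg hYb
        omega
    · by_cases hYb : ∃ a ∈ Y, a ∈ bl
      · have h1 : R X = 1 := if_neg hXb
        have h2 : R Y = 2 + ix Y := if_pos hYb
        omega
      · -- both weights are one: no block at all
        have h1 : R X = 1 := if_neg hXb
        have hA1 : kap A = 1 := by omega
        have hB1 : kap B = 1 := by omega
        have hAk : k ≤ A.card := hXk.trans (Finset.card_le_card hXA)
        have hBk : k ≤ B.card := hYk.trans (Finset.card_le_card hYB)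
        have hno : ∀ D, k ≤ D.card → kap D = 1 → Disjoint D bl := by
          intro D hD hD1
          rw [Finset.disjoint_left]
          intro a ha hab
          have h3 : R D ≤ kap D := Finset.le_sup (f := R) (by
            rw [Finset.mem_filter, Finset.mem_powerset]
            exact ⟨Finset.Subset.refl _, hD⟩)
          have h4 : R D = 2 + ix D := if_pos ⟨a, ha, hab⟩
          omega
        have h5 : Disjoint (A ∪ B) bl := by
          rw [Finset.disjoint_union_left]
          exact ⟨hno A hAk hA1, hno B hBk hB1⟩
        have h6 : ((A ∪ B) ∪ bl).card ≤ n := by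
          have := Finset.card_le_univ ((A ∪ B) ∪ bl)
          simpa using this
        rw [Finset.card_union_of_disjoint h5] at h6
        omega
  -- the labelling
  set f : Finset (Fin n) → Finset (Fin n) → ℤ := fun A B =>
    if (A ∪ B).card + 2 ≤ 2 * k then
      (if ∃ a ∈ A, ∀ b ∈ A ∪ B, a ≤ b then ((A ∪ B).card : ℤ) else -((A ∪ B).card : ℤ))
    else
      (if kap B < kap A then (2 * k - 2 + kap A : ℤ) else -(2 * k - 2 + kap B : ℤ)) with hf
  have hfabs : ∀ A B : Finset (Fin n), |f A B| = if (A ∪ B).card + 2 ≤ 2 * k then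
      ((A ∪ B).card : ℤ) else (2 * k - 2 + (max (kap A) (kap B) : ℕ) : ℤ) := by
    intro A B
    simp only [hf]
    by_cases h1 : (A ∪ B).card + 2 ≤ 2 * k
    · rw [if_pos h1, if_pos h1]
      split_ifs
      · exact abs_of_nonneg (by positivity)
      · rw [abs_neg]
        exact abs_of_nonneg (by positivity)
    · rw [if_neg h1, if_neg h1]
      have hk' : (1 : ℤ) ≤ k := by exact_mod_cast hk
      split_ifs with h2
      · rw [max_eq_left h2.le]
        exact abs_of_nonneg (by omega)
      · rw [max_eq_right (not_lt.1 h2), abs_neg]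
        exact abs_of_nonneg (by omega)
  have hmain := Pool.Agent.H41.ENL.tucker (n := n) (d := 2 * k + s - 1) f ?_ ?_
  · omega
  · intro A B hAB hne
    have hcpos : 1 ≤ (A ∪ B).card := Finset.card_pos.2 hne
    refine ⟨?_, ?_, ?_⟩
    · simp only [hf]
      rw [Finset.union_comm B A]
      by_cases h1 : (A ∪ B).card + 2 ≤ 2 * k
      · rw [if_pos h1, if_pos h1]
        -- the minimum is in exactly one of the sets
        obtain ⟨x, hx, hxmin⟩ := Finset.exists_min_image (A ∪ B) id hne
        simp only [id] at hxmin
        rcases Finset.mem_union.1 hx with hxA | hxB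
        · have h2 : ∃ a ∈ A, ∀ b ∈ A ∪ B, a ≤ b := ⟨x, hxA, hxmin⟩
          have h3 : ¬ ∃ a ∈ B, ∀ b ∈ A ∪ B, a ≤ b := by
            rintro ⟨a, ha, hamin⟩
            have : a = x := le_antisymm (hamin x hx) (hxmin a (Finset.mem_union_right _ ha))
            exact Finset.disjoint_left.1 hAB hxA (this ▸ ha)
          rw [if_pos h2, if_neg h3]
        · have h2 : ∃ a ∈ B, ∀ b ∈ A ∪ B, a ≤ b := ⟨x, hxB, hxmin⟩
          have h3 : ¬ ∃ a ∈ A, ∀ b ∈ A ∪ B, a ≤ b := by
            rintro ⟨a, ha, hamin⟩
            have : a = x := le_antisymm (hamin x hx) (hxmin a (Finset.mem_union_left _ ha))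
            exact Finset.disjoint_left.1 hAB (this ▸ ha) hxB
          rw [if_pos h2, if_neg h3]
          ring
      · rw [if_neg h1, if_neg h1]
        have h2 := hdiff A B hAB (by omega)
        rcases lt_or_gt_of_ne h2 with h3 | h3
        · rw [if_pos h3, if_neg (not_lt.2 h3.le)]
          ring
        · rw [if_neg (not_lt.2 h3.le), if_pos h3]
    · rw [hfabs]
      split_ifs with h1
      · exact_mod_cast hcpos
      · have h2 := hdiff A B hAB (by omega)
        have h3 : 1 ≤ max (kap A) (kap B) := by omega
        have h3' : (1 : ℤ) ≤ ((max (kap A) (kap B) : ℕ) : ℤ) := by exact_mod_cast h3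
        omega
    · rw [hfabs]
      split_ifs with h1
      · omega
      · have h2 : max (kap A) (kap B) ≤ s + 1 := max_le (hkap_le A) (hkap_le B)
        have h2' : ((max (kap A) (kap B) : ℕ) : ℤ) ≤ s + 1 := by exact_mod_cast h2
        omega
  · intro A B A' B' hAB hne hAB' hAA hBB
    have hsub : A ∪ B ⊆ A' ∪ B' := Finset.union_subset_union hAA hBB
    have hle := Finset.card_le_card hsub
    by_cases h1 : (A' ∪ B').card + 2 ≤ 2 * k
    · have h2 : (A ∪ B).card + 2 ≤ 2 * k := by omega
      rcases hle.lt_or_eq with h3 | h3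
      · right
        rw [hfabs, hfabs, if_pos h2, if_pos h1]
        exact_mod_cast h3
      · left
        have h4 : A ∪ B = A' ∪ B' := Finset.eq_of_subset_of_card_le hsub h3.ge
        have h5 : A = A' := by
          apply Finset.Subset.antisymm hAA
          intro a ha
          have : a ∈ A ∪ B := h4 ▸ Finset.mem_union_left _ ha
          rcases Finset.mem_union.1 this with h | h
          · exact h
          · exact absurd (hBB h) (Finset.disjoint_left.1 hAB' ha)
        have h6 : B = B' := by
          apply Finset.Subset.antisymm hBB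
          intro a ha
          have : a ∈ A ∪ B := h4 ▸ Finset.mem_union_right _ ha
          rcases Finset.mem_union.1 this with h | h
          · exact absurd ha (Finset.disjoint_left.1 hAB' (hAA h))
          · exact h
        rw [h5, h6]
    · by_cases h2 : (A ∪ B).card + 2 ≤ 2 * k
      · right
        rw [hfabs, hfabs, if_pos h2, if_neg h1]
        have h3 := hdiff A' B' hAB' (by omega)
        have h4 : 1 ≤ max (kap A') (kap B') := by omega
        have h4' : (1 : ℤ) ≤ ((max (kap A') (kap B') : ℕ) : ℤ) := by exact_mod_cast h4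
        omega
      · have h3 := hdiff A' B' hAB' (by omega)
        have h3' := hdiff A B hAB (by omega)
        have hA := hkap_mono A A' hAA
        have hB := hkap_mono B B' hBB
        have h4 : max (kap A) (kap B) ≤ max (kap A') (kap B') := max_le_max hA hB
        rcases h4.lt_or_eq with h5 | h5
        · right
          rw [hfabs, hfabs, if_neg h2, if_neg h1]
          have : ((max (kap A) (kap B) : ℕ) : ℤ) < ((max (kap A') (kap B') : ℕ) : ℤ) := by
            exact_mod_cast h5
          omega
        · left
          simp only [hf]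
          rw [if_neg h2, if_neg h1]
          rcases lt_or_gt_of_ne h3' with h6 | h6
          · rw [max_eq_right h6.le] at h5
            have h7 : kap B' = kap B := by
              have := le_max_right (kap A') (kap B')
              omega
            have h8 : kap A' < kap B' := by
              have := le_max_left (kap A') (kap B')
              omega
            rw [if_neg (not_lt.2 h6.le), if_neg (not_lt.2 h8.le), h7]
          · rw [max_eq_left h6.le] at h5
            have h7 : kap A' = kap A := by
              have := le_max_left (kap A') (kap B')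
              omega
            have h8 : kap B' < kap A' := by
              have := le_max_right (kap A') (kap B')
              omega
            rw [if_pos h6, if_pos h8, h7]

/-- [TK] -/
theorem pf_TK : T_TK := by
  classical
  intro I _ m N φ C Z hne hcard hdisj hC
  by_contra hcon
  push Not at hcon
  have : Fintype I := Fintype.ofFinite I
  -- elements: blocks and remaining points
  let O := {i : I // ∀ j, i ∉ Z j}
  let E := Fin (m + 2) ⊕ O
  have : Fintype O := Fintype.ofFinite O
  let _ : Fintype E := inferInstanceAs (Fintype (Fin (m + 2) ⊕ O))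
  set n := Fintype.card E with hn
  have hnE : n = m + 2 + Fintype.card O := by
    rw [hn]
    exact Fintype.card_sum.trans (by rw [Fintype.card_fin])
  let e : Fin n ≃ E := (Fintype.equivFin E).symm
  let st : E → Set I := fun x => Sum.elim Z (fun o => {o.1}) x
  let U : Finset (Fin n) → Set I := fun A => {i | ∃ a ∈ A, i ∈ st (e a)}
  have hN : 1 ≤ N := by
    have h1 := (Set.ncard_pos (s := Z 0)).2 (hne 0)
    have h2 := hcard 0
    omega
  have hst_card : ∀ x, (st x).ncard ≤ N := by
    rintro (j | o)
    · exact hcard j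
    · simp only [st, Sum.elim_inr, Set.ncard_singleton]
      exact hN
  have hst_disj : ∀ x y, x ≠ y → Disjoint (st x) (st y) := by
    rintro (j | o) (j' | o') hxy
    · exact hdisj j j' (fun h => hxy (by rw [h]))
    · simp only [st, Sum.elim_inl, Sum.elim_inr, Set.disjoint_singleton_right]
      exact o'.2 j
    · simp only [st, Sum.elim_inl, Sum.elim_inr, Set.disjoint_singleton_left]
      exact o.2 j'
    · simp only [st, Sum.elim_inr, Set.disjoint_singleton]
      intro h
      exact hxy (by rw [Subtype.ext h])
  have hst_cover : ∀ i, ∃ x, i ∈ st x := by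
    intro i
    by_cases h : ∀ j, i ∉ Z j
    · exact ⟨Sum.inr ⟨i, h⟩, rfl⟩
    · push Not at h
      obtain ⟨j, hj⟩ := h
      exact ⟨Sum.inl j, hj⟩
  have hU_disj : ∀ A B : Finset (Fin n), Disjoint A B → Disjoint (U A) (U B) := by
    intro A B hAB
    rw [Set.disjoint_left]
    rintro i ⟨a, ha, hia⟩ ⟨b, hb, hib⟩
    have hab : a ≠ b := fun h => Finset.disjoint_left.1 hAB ha (h ▸ hb)
    exact Set.disjoint_left.1 (hst_disj (e a) (e b) (fun h => hab (e.injective h))) hia hib
  have hU_compl : ∀ A B : Finset (Fin n), ((U A ∪ U B)ᶜ).ncard ≤ (n - (A ∪ B).card) * N := by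
    intro A B
    have h1 : (U A ∪ U B)ᶜ ⊆
        ((((A ∪ B)ᶜ).biUnion (fun a => (st (e a)).toFinset) : Finset I) : Set I) := by
      intro i hi
      obtain ⟨x, hx⟩ := hst_cover i
      rw [Finset.mem_coe, Finset.mem_biUnion]
      refine ⟨e.symm x, ?_, ?_⟩
      · rw [Finset.mem_compl, Finset.mem_union]
        rintro (h | h)
        · exact hi (Or.inl ⟨e.symm x, h, by simpa using hx⟩)
        · exact hi (Or.inr ⟨e.symm x, h, by simpa using hx⟩)
      · rw [Set.mem_toFinset]
        simpa using hx
    have h2 := Set.ncard_le_ncard h1 (Finset.finite_toSet _)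
    rw [Set.ncard_coe_finset] at h2
    have h3 : (((A ∪ B)ᶜ).biUnion (fun a => (st (e a)).toFinset)).card ≤
        ((A ∪ B)ᶜ).card * N := by
      refine Finset.card_biUnion_le_card_mul _ _ _ fun a _ => ?_
      have := hst_card (e a)
      rwa [Set.ncard_eq_toFinset_card'] at this
    rw [Finset.card_compl, Fintype.card_fin] at h3
    exact h2.trans h3
  -- blocks
  let bl : Finset (Fin n) := Finset.univ.image (fun j : Fin (m + 2) => e.symm (Sum.inl j))
  have hbl : bl.card = m + 2 := by
    rw [Finset.card_image_of_injective _ (fun j j' h => Sum.inl_injective (e.symm.injective h)),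
      Finset.card_univ, Fintype.card_fin]
  have hUbl : ∀ X : Finset (Fin n), (∃ a ∈ X, a ∈ bl) → φ (U X) ∉ C := by
    rintro X ⟨a, ha, hab⟩
    obtain ⟨j, -, rfl⟩ := Finset.mem_image.1 hab
    refine hC j _ ?_
    intro i hi
    refine ⟨_, ha, ?_⟩
    rw [e.apply_symm_apply]
    exact hi
  -- colours outside `C`
  set s := (Cᶜ).card with hs
  have hsm : s ≤ m := by
    have := Finset.card_le_univ (Cᶜ)
    rw [Fintype.card_fin] at this
    exact this
  let ix : Finset (Fin n) → ℕ := fun X => ((Cᶜ).filter (fun c => c < φ (U X))).card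
  have hix : ∀ X, (∃ a ∈ X, a ∈ bl) → ix X < s := by
    intro X hX
    apply Finset.card_lt_card
    rw [Finset.ssubset_iff_of_subset (Finset.filter_subset _ _)]
    refine ⟨φ (U X), ?_, ?_⟩
    · rw [Finset.mem_compl]
      exact hUbl X hX
    · rw [Finset.mem_filter]
      exact fun h => lt_irrefl _ h.2
  have hixinj : ∀ X Y, (∃ a ∈ X, a ∈ bl) → (∃ a ∈ Y, a ∈ bl) → ix X = ix Y →
      φ (U X) = φ (U Y) := by
    intro X Y hX hY hXY
    have key : ∀ X Y, (∃ a ∈ X, a ∈ bl) → φ (U X) < φ (U Y) → ix X < ix Y := by
      intro X Y hX hlt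
      apply Finset.card_lt_card
      rw [Finset.ssubset_iff_of_subset]
      · refine ⟨φ (U X), ?_, ?_⟩
        · rw [Finset.mem_filter, Finset.mem_compl]
          exact ⟨hUbl X hX, hlt⟩
        · rw [Finset.mem_filter]
          exact fun h => lt_irrefl _ h.2
      · intro c hc
        rw [Finset.mem_filter] at *
        exact ⟨hc.1, hc.2.trans hlt⟩
    rcases lt_trichotomy (φ (U X)) (φ (U Y)) with h | h | h
    · have := key X Y hX h
      omega
    · exact h
    · have := key Y X hY h
      omega
  refine tuck_core n s ((n - s) / 2) (by omega) (by omega) (by omega) bl (by omega) ix hix ?_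
  intro X Y hXY hX hY hXk hYk hne'
  have h1 := hcon (U X) (U Y) (hU_disj X Y hXY) (hixinj X Y hX hY hne') (hUbl X hX)
  have h2 := hU_compl X Y
  have h3 : (X ∪ Y).card = X.card + Y.card := Finset.card_union_of_disjoint hXY
  have h4 : n - (X ∪ Y).card ≤ m + 1 := by omega
  have h5 : (n - (X ∪ Y).card) * N ≤ (m + 1) * N := Nat.mul_le_mul_right N h4
  omega

end Pool.Agent.H21.SF
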