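import Pool.Agent.H21.SF.EVFb

/-!
# MP_70ba79_ag, THEOREM S: EVF, the fundamental inequality for a curve
-/

set_option autoImplicit false

namespace Pool.Agent.H21.SF

open MvPolynomial SC Pool.Agent.H27.LV
open Pool.Agent.H84.SM (dp cr dt)
open Pool.Agent.H92.SF Pool.Agent.H3.SF

lemma scq_der {K : Type} [Field K] {c : K} (hc : c ≠ 0) {w : ℕ} (hw : 3 ≤ w) (τ : ℤ) (P : Q2 K)
    (j : ℕ) (a : Fin 2 →₀ ℕ) : ((Polynomial.derivative (scq c (τ - 2 * w) P)).coeff j).coeff a =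
    c ^ (τ - 3 - 2 * ((w - 3 : ℕ) : ℤ) + 3 * j) * ((Polynomial.derivative P).coeff j).coeff a := by
  have e : ∀ Q : Q2 K, ((Polynomial.derivative Q).coeff j).coeff a =
      ((j : K) + 1) * (Q.coeff (j + 1)).coeff a := by
    intro Q
    have e1 : ((j : MvPolynomial (Fin 2) K) + 1) = C ((j : K) + 1) := by
      rw [C_add, C_1, map_natCast]
    rw [Polynomial.coeff_derivative, e1, mul_comm, coeff_C_mul]
  rw [e, e, scq_coeff hc]
  have e2 : τ - 2 * (w : ℤ) + 3 * ((j + 1 : ℕ) : ℤ) =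
      τ - 3 - 2 * ((w - 3 : ℕ) : ℤ) + 3 * (j : ℤ) := by
    rw [Nat.cast_sub hw]
    push_cast
    ring
  rw [e2]
  ring

theorem pf_EVF (hEVL : T_EVL) (hVLA : T_VLA) (hVLQ : T_VLQ) (hVLD : T_VLD) (hVLI : T_VLI)
    (hVPS : T_VPS) (hSCD : T_SCD) (hSCV : T_SCV) (hSF1 : T_SF1) (hSF2 : T_SF2)
    (hTWM : T_TWM) : T_EVF := by
  classical
  intro k F _ _ _ _ _ u dd δ j0 c0 J hs m G hm hc K _ _ _ htr D hD φ x g S hf n t r w n' τ τ' V P
    N PK NK hVE hV0 hVP hPd hPw hNw hPK hNK hNe hPe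
  obtain ⟨hT1, hT2, hT3, -, -⟩ := hTWM k F u dd
  -- weights
  have hTV : Tw u dd n (-(t : ℤ)) V := hVE.1
  have hTV' : Tw u dd (r * w + n') (r * τ + τ') V := by
    rw [hVP]
    exact hT1 _ _ _ _ _ _ (hT2 _ _ _ _ hPw) hNw
  obtain ⟨hn, hτ⟩ := tw_unique hV0 hTV hTV'
  have hw3 : 3 ≤ w := by
    by_contra hcon
    have h1 : P.coeff P.natDegree = 0 := (hPw.1 P.natDegree).2 (by omega)
    have h2 : P.leadingCoeff = 0 := h1
    rw [Polynomial.leadingCoeff_eq_zero] at h2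
    rw [h2, Polynomial.natDegree_zero] at hPd
    omega
  have hPw' : Tw u dd (w - 3) (τ - 3) (Polynomial.derivative P) := by
    refine hT3 _ _ _ ?_
    rw [Nat.sub_add_cancel hw3, sub_add_cancel]
    exact hPw
  have hdPK : VQ u φ (Polynomial.derivative P) (Polynomial.derivative PK) :=
    (hVLQ k F K u φ).2.2.2.1 _ _ hPK
  -- values
  obtain ⟨hS1, hS2, hS3, hS4, -, hS6, -⟩ := hSF1 k F u dd δ j0 c0 J hs
  obtain ⟨hSD, -⟩ := hSF2 k F u dd δ j0 c0 J hs m G hc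
  obtain ⟨hA1, hA2, -, hA4, hA5⟩ := hVLA k F K u φ
  have hL : Rl (fun (_ : ℤ) (a : F) (b : K) => Vl u φ a b) := by
    have h0 := hA5 0
    have h1 := hA5 1
    have hm1 := hA5 (-1)
    rw [map_zero, map_zero] at h0
    rw [map_one, map_one] at h1
    rw [map_neg, map_neg, map_one, map_one] at hm1
    refine ⟨fun _ => h0, h1, fun _ _ _ _ _ h h' => (hA2 _ _ _ _ h h').1, fun _ a b h => ?_,
      fun _ _ _ _ _ _ h h' => (hA2 _ _ _ _ h h').2⟩
    have := (hA2 _ _ _ _ hm1 h).2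
    rwa [neg_one_mul, neg_one_mul] at this
  have hvx : ∀ i, Vl u φ (u i) (x i) := by
    intro i
    have h1 := hA4 ⟨u i, hS2 i⟩
    rwa [hf.cx i ⟨u i, hS2 i⟩ rfl] at h1
  have hvG : Vl u φ G g := by
    have h1 := hA4 ⟨G, hc.itg⟩
    rwa [hf.gx ⟨G, hc.itg⟩ rfl] at h1
  obtain ⟨hvJ, hvD⟩ := hVLD k F K u dd δ j0 c0 J hs φ x hf.cx hf.Jx
  obtain ⟨gK, hgK, hgD⟩ := hvD G g hvG
  choose HK' hHK' hHD' using fun l => hvD (dd l G) (gK l) (hgK l)
  obtain ⟨HK, hHK0⟩ : ∃ HK : Fin 3 → Fin 3 → K, ∀ i j, HK i j = HK' j i :=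
    ⟨fun i j => HK' j i, fun _ _ => rfl⟩
  have hHK : ∀ i j, Vl u φ (dd i (dd j G)) (HK i j) := by
    intro i j
    rw [hHK0]
    exact hHK' j i
  have hsym : ∀ i j, HK i j = HK j i := by
    intro i j
    refine hA1 _ _ _ (hHK i j) ?_
    rw [hs.comm i j]
    exact hHK j i
  have hHD : ∀ (E : Derivation k K K) (i : Fin 3), E (gK i) = ∑ j, HK i j * E (x j) := by
    intro E i
    rw [hHD' i E]
    refine Finset.sum_congr rfl fun j _ => ?_
    rw [hsym i j, hHK0]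
  have hDat : Dat m x gK g HK := by
    refine ⟨?_, fun i => ?_, hsym⟩
    · refine hA1 (dp u (grd dd G)) _ _ ?_ ?_
      · exact hL.sum Finset.univ _ _ 0 fun i _ => hL.mul 0 0 _ _ _ _ (hvx i) (hgK i)
      · rw [hSD.eul]
        exact hL.mul 0 0 _ _ _ _ (hL.nat m) hvG
    · refine hA1 (∑ j, hes dd G i j * u j) _ _ ?_ ?_
      · exact hL.sum Finset.univ _ _ 0 fun j _ => hL.mul 0 0 _ _ _ _ (hHK i j) (hvx j)
      · rw [hSD.hes]
        exact hL.mul 0 0 _ _ _ _ (hL.sub (d := 0) (hL.nat m) hL.one) (hgK i)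
  obtain ⟨i0, hi0⟩ := hf.one
  have hg0 := hf.ne
  have hJ0 := hf.Jx
  have hcz : CharZero K := charZero_of_injective_algebraMap (algebraMap k K).injective
  have hmK : (m : K) ≠ 0 := by
    have : m ≠ 0 := by omega
    exact_mod_cast this
  -- homogeneity
  have hmx : ∀ i, Hm k (eu u dd) 1 (u i) := by
    intro i
    unfold Hm
    rw [hS1.eul i, Int.cast_one, one_mul]
  have hmg : ∀ l, Hm k (eu u dd) ((m : ℤ) - 1) (dd l G) := fun l => hS6 _ _ l hc.hom
  have hmH : ∀ i j, Hm k (eu u dd) ((m : ℤ) - 2) (dd i (dd j G)) := by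
    intro i j
    have h1 := hS6 _ _ i (hmg j)
    rwa [sub_sub, one_add_one_eq_two] at h1
  have hmJ : Hm k (eu u dd) (j0 : ℤ) (aeval u J) := by
    unfold Hm eu
    have e1 : (∑ l, u l • dd l) (aeval u J) = ∑ l, u l * dd l (aeval u J) := by
      rw [Fin.sum_univ_three, Fin.sum_univ_three]
      rfl
    rw [e1]
    have e2 := congrArg (aeval u) hs.Jh.sum_X_mul_pderiv
    rw [map_sum] at e2
    have e3 : ∀ l, u l * dd l (aeval u J) = aeval u (X l * pderiv l J) := by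
      intro l
      rw [hS4, map_mul, aeval_X]
    rw [Finset.sum_congr rfl fun l _ => e3 l, e2, map_nsmul, nsmul_eq_mul]
    push_cast
    rfl
  obtain ⟨EN, hEN⟩ : ∃ z, z = evc D x NK := ⟨_, rfl⟩
  obtain ⟨EP, hEP⟩ : ∃ z, z = evc D x (Polynomial.derivative PK) := ⟨_, rfl⟩
  rw [← hEN] at hNe
  rw [← hEP] at hPe
  obtain ⟨Om, hOm⟩ : ∃ z, z = aeval x J ^ (2 * (n' + r * (w - 3))) *
    (EN * (m * g * EP) ^ r) := ⟨_, rfl⟩
  have hmg0 : (m : K) * g ≠ 0 := mul_ne_zero hmK hg0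
  have hOm0 : Om ≠ 0 := by
    rw [hOm]
    exact mul_ne_zero (pow_ne_zero _ hJ0) (mul_ne_zero hNe (pow_ne_zero _
      (mul_ne_zero hmg0 hPe)))
  -- the local estimate
  have hloc : ∀ v : DV k K, 0 ≤ v.ord Om +
      ((2 * ((n' + r * (w - 3) : ℕ) : ℤ) * j0 - t + r * ((m : ℤ) - 3)) * (poleOrder v x : ℤ) +
      ((n' + r * (w - 3) : ℕ) : ℤ) * ((if v ∈ S then 1 else 0) - ordD v D)) := by
    intro v
    have hpl : ∀ i, -(poleOrder v x : ℤ) ≤ v.ord (x i) := by
      intro i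
      have h1 : (-(v.ord (x i))).toNat ≤ poleOrder v x :=
        Finset.le_sup (f := fun i => (-(v.ord (x i))).toNat) (Finset.mem_univ i)
      omega
    obtain ⟨j, hj, hjp⟩ : ∃ j, x j ≠ 0 ∧ v.ord (x j) = -(poleOrder v x : ℤ) := by
      by_cases hp : poleOrder v x = 0
      · refine ⟨i0, by rw [hi0]; exact one_ne_zero, ?_⟩
        rw [hi0, v.ord_one, hp]
        simp
      · obtain ⟨i, -, hi⟩ := Finset.exists_mem_eq_sup (Finset.univ : Finset (Fin 3))
          Finset.univ_nonempty (fun i => (-(v.ord (x i))).toNat)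
        have hi' : poleOrder v x = (-(v.ord (x i))).toNat := hi
        refine ⟨i, ?_, by omega⟩
        intro h0
        rw [h0, v.ord_zero] at hi'
        exact hp (by rw [hi']; rfl)
    obtain ⟨ε, hε⟩ : ∃ ε : ℤ, ε = if v ∈ S then 1 else 0 := ⟨_, rfl⟩
    rw [← hε]
    have hε0 : 0 ≤ ε := by rw [hε]; split_ifs <;> norm_num
    obtain ⟨-, ⟨hd1, hd2⟩, -⟩ := dor k K htr D hD v
    obtain ⟨μ, hμ⟩ : ∃ μ : K, μ = v.unif ^ (ε - ordD v D) := ⟨_, rfl⟩
    have hμ0 : μ ≠ 0 := by rw [hμ]; exact v.unif_zpow_ne_zero _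
    have hμo : v.ord μ = ε - ordD v D := by rw [hμ]; exact v.ord_unif_zpow _
    have hμg : ge v (ε - ordD v D) μ := Or.inr hμo.ge
    have hθ : ∀ z : K, (μ • D) z = μ * D z := fun z => rfl
    have hθ1 : ∀ z : K, 0 ≤ v.ord z → ge v 0 ((μ • D) z) := by
      intro z hz
      rw [hθ]
      exact (hμg.mul (hd1 z hz)).mono (by omega)
    obtain ⟨c, hcx⟩ : ∃ c : K, c = (x j)⁻¹ := ⟨_, rfl⟩
    have hc0 : c ≠ 0 := by rw [hcx]; exact inv_ne_zero hj
    have hco : v.ord c = poleOrder v x := by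
      have h1 := v.ord_mul' hj hc0
      rw [hcx, mul_inv_cancel₀ hj, v.ord_one, hjp] at h1
      rw [hcx]
      omega
    have hxt : ∀ i, ge v 0 (c * x i) := by
      intro i
      right
      by_cases h0 : x i = 0
      · rw [h0, mul_zero, v.ord_zero]
      · rw [v.ord_mul' hc0 h0, hco]
        have := hpl i
        omega
    have hxj : c * x j = 1 := by rw [hcx]; exact inv_mul_cancel₀ hj
    have hGt0 : c ^ m * g ≠ 0 := mul_ne_zero (pow_ne_zero _ hc0) hg0
    have hlog : ge v 0 ((μ • D) (c ^ m * g) / (c ^ m * g)) := by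
      by_cases hv : v ∈ S
      · have h1 := hd2 _ hGt0
        have h2 := hμg.mul h1
        have h3 : ε = 1 := by rw [hε, if_pos hv]
        have h4 : ge v (-(v.ord (c ^ m * g))) (c ^ m * g)⁻¹ := by
          right
          have h5 := v.ord_mul' hGt0 (inv_ne_zero hGt0)
          rw [mul_inv_cancel₀ hGt0, v.ord_one] at h5
          omega
        rw [div_eq_mul_inv, hθ]
        exact (h2.mul h4).mono (by omega)
      · have h1 : v.ord (c ^ m * g) = 0 := by
          rw [v.ord_mul' (pow_ne_zero _ hc0) hg0, v.ord_pow, hco, hf.off v hv]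
          ring
        have h2 := hθ1 _ h1.ge
        have h4 : ge v 0 (c ^ m * g)⁻¹ := by
          right
          have h5 := v.ord_mul' hGt0 (inv_ne_zero hGt0)
          rw [mul_inv_cancel₀ hGt0, v.ord_one] at h5
          omega
        rw [div_eq_mul_inv]
        exact (h2.mul h4).mono (by omega)
    -- scaled values
    have hRl : Rl (Rv u dd φ c) := rV hVLA hc0
    have hRx : ∀ i, Rv u dd φ c 1 (u i) (c * x i) := by
      intro i
      have h1 := rv_of hc0 (hmx i) (hvx i)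
      rwa [zpow_one] at h1
    have hRg : ∀ l, Rv u dd φ c ((m : ℤ) - 1) (grd dd G l) (c ^ (m - 1) * gK l) := by
      intro l
      have h1 := rv_of hc0 (hmg l) (hgK l)
      have e1 : c ^ ((m : ℤ) - 1) = c ^ (m - 1) := by
        rw [← zpow_natCast, Nat.cast_sub (by omega), Nat.cast_one]
      rwa [e1] at h1
    have hRG : Rv u dd φ c (m : ℤ) G (c ^ m * g) := by
      have h1 := rv_of hc0 hc.hom hvG
      rwa [zpow_natCast] at h1
    have hRH : ∀ i l, Rv u dd φ c ((m : ℤ) - 2) (hes dd G i l) (c ^ (m - 2) * HK i l) := by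
      intro i l
      have h1 := rv_of hc0 (hmH i l) (hHK i l)
      have e1 : c ^ ((m : ℤ) - 2) = c ^ (m - 2) := by
        rw [← zpow_natCast, Nat.cast_sub (by omega), Nat.cast_ofNat]
      rwa [e1] at h1
    have hRs : Rv u dd φ c (j0 : ℤ) (aeval u J) (c ^ j0 * aeval x J) := by
      have h1 := rv_of hc0 hmJ hvJ
      rwa [zpow_natCast] at h1
    obtain ⟨hDat', hθG, hθg⟩ := hSCD k K m x gK g HK (μ • D) c (by omega) hc0 hDat
      (hgD (μ • D)) (hHD (μ • D))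
    have hreg : ∀ (d : ℤ) (a : F) (b : K), Rv u dd φ c d a b → Itg k u a → ge v 0 b :=
      fun d a b h1 h2 => rv_reg hVLI hs hf.cx hf.one v hc0 hco h1 h2
    have hcert : ∃ e : Fin 3 → K, (∀ i, ge v 0 (e i)) ∧
        dp (fun i => c ^ (m - 1) * gK i) e = 1 := by
      obtain ⟨c1, hc1⟩ := hc.cert
      obtain ⟨e, he1, he2⟩ := hc1 j
      have hRe : ∀ l, Rv u dd φ c ((c1 : ℤ) + 1 - m) (e l)
          (c ^ ((c1 : ℤ) + 1 - m) * φ ⟨e l, (he1 l).1⟩) := fun l =>
        rv_of hc0 (he1 l).2 (hA4 ⟨e l, (he1 l).1⟩)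
      refine ⟨fun l => c ^ ((c1 : ℤ) + 1 - m) * φ ⟨e l, (he1 l).1⟩, fun l =>
        hreg _ _ _ (hRe l) (he1 l).1, ?_⟩
      have h1 : Rv u dd φ c (c1 : ℤ) (∑ l, e l * dd l G)
          (∑ l, c ^ ((c1 : ℤ) + 1 - m) * φ ⟨e l, (he1 l).1⟩ * (c ^ (m - 1) * gK l)) :=
        hRl.sum Finset.univ _ _ _ fun l _ => cst (hRl.mul _ _ _ _ _ _ (hRe l) (hRg l)) (by ring)
      have h2 := hRl.pow (hRx j) c1
      rw [mul_one, hxj, one_pow, he2] at h2
      rw [← rv_uniq hVLA hc0 h1 h2]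
      exact Finset.sum_congr rfl fun l _ => mul_comm _ _
    have hs0 : c ^ j0 * aeval x J ≠ 0 := mul_ne_zero (pow_ne_zero _ hc0) hJ0
    have hsr : ge v 0 (c ^ j0 * aeval x J) := hreg _ _ _ hRs (hS3 J)
    -- scaled polynomials
    obtain ⟨P', hP'⟩ : ∃ P', P' = scq c (τ - 2 * w) PK := ⟨_, rfl⟩
    obtain ⟨N', hN'⟩ : ∃ N', N' = scq c (τ' - 2 * n') NK := ⟨_, rfl⟩
    have hP'r : RP (RM (Rv u dd φ c) 0) 3 (τ - 2 * w) P P' := by
      rw [hP']
      exact scq_rel hc0 hPw hPK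
    have hN'r : RP (RM (Rv u dd φ c) 0) 3 (τ' - 2 * n') N N' := by
      rw [hN']
      exact scq_rel hc0 hNw hNK
    have hV'r : RP (RM (Rv u dd φ c) 0) 3 (r * (τ - 2 * w) + (τ' - 2 * n')) V (P' ^ r * N') := by
      rw [hVP]
      exact (rP (rM hRl 0) 3).mul _ _ _ _ _ _ ((rP (rM hRl 0) 3).pow hP'r r) hN'r
    have hWP : WH w P' := wh_of fun i a ha => by
      rw [hP', scq_coeff hc0, vq_zero hVLA hPw hPK ha, mul_zero]
    have hWN : WH n' N' := wh_of fun i a ha => by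
      rw [hN', scq_coeff hc0, vq_zero hVLA hNw hNK ha, mul_zero]
    have hEN' : evc (μ • D) (fun i => c * x i) N' = c ^ τ' * μ ^ n' * EN := by
      rw [hEN]
      exact hSCV k K D x c μ n' τ' NK N' hc0 (vq_wh hVLA hNw hNK)
        (fun i a => by rw [hN', scq_coeff hc0])
    have hEP' : evc (μ • D) (fun i => c * x i) (Polynomial.derivative P') =
        c ^ (τ - 3) * μ ^ (w - 3) * EP := by
      rw [hEP]
      exact hSCV k K D x c μ (w - 3) (τ - 3) (Polynomial.derivative PK)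
        (Polynomial.derivative P') hc0 (vq_wh hVLA hPw' hdPK)
        (fun i a => by rw [hP', scq_der hc0 hw3])
    have hN'0 : N' ≠ 0 := by
      intro h0
      rw [h0, map_zero] at hEN'
      exact mul_ne_zero (mul_ne_zero (zpow_ne_zero _ hc0) (pow_ne_zero _ hμ0)) hNe hEN'.symm
    have hdP'0 : Polynomial.derivative P' ≠ 0 := by
      intro h0
      rw [h0, map_zero] at hEP'
      exact mul_ne_zero (mul_ne_zero (zpow_ne_zero _ hc0) (pow_ne_zero _ hμ0)) hPe hEP'.symm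
    have hP'd : 1 ≤ P'.natDegree := by
      by_contra hcon
      exact hdP'0 (Polynomial.derivative_of_natDegree_zero (by omega))
    have hP'0 : P' ≠ 0 := by
      intro h0
      rw [h0, Polynomial.derivative_zero] at hdP'0
      exact hdP'0 rfl
    have hnz : (n : ℤ) = r * w + n' := by exact_mod_cast hn
    have hpsi := psi_rel hRl m j0 u (grd dd G) (fun i => c * x i) (fun i => c ^ (m - 1) * gK i) G
      (c ^ m * g) (hes dd G) (fun i l => c ^ (m - 2) * HK i l) (aeval u J) (c ^ j0 * aeval x J)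
      hRx hRg hRG hRH hRs n (-(t : ℤ)) V (P' ^ r * N')
      (fun i a _ => cst (hV'r i a) (by rw [hτ, hnz]; ring))
      (fun i a ha => by
        have h1 := wh_zero hTV.1 ha
        have h2 := hV'r i a
        rw [h1] at h2
        exact ⟨h1, rv_uniq hVLA hc0 h2 (hRl.zero _)⟩)
    have hE := hEVL k K v (μ • D) m (fun i => c * x i) (fun i => c ^ (m - 1) * gK i) (c ^ m * g)
      (c ^ j0 * aeval x J) (fun i l => c ^ (m - 2) * HK i l) (by omega) hDat' hGt0 hs0 hθ1 hxt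
      hcert hsr hθG hθg hlog r w n' P' N' hWP hWN hP'd
      (mul_ne_zero (pow_ne_zero _ hP'0) hN'0)
      (fun i a => hreg _ _ _ (hpsi i a) (hVE.2 i a))
    rw [hEN', hEP'] at hE
    have n1 : c ^ τ' * μ ^ n' ≠ 0 := mul_ne_zero (zpow_ne_zero _ hc0) (pow_ne_zero _ hμ0)
    have n2 : c ^ (τ - 3) * μ ^ (w - 3) ≠ 0 :=
      mul_ne_zero (zpow_ne_zero _ hc0) (pow_ne_zero _ hμ0)
    have n3 : (m : K) * (c ^ m * g) ≠ 0 := mul_ne_zero hmK hGt0
    have n4 := mul_ne_zero n3 (mul_ne_zero n2 hPe)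
    have hE' := hE.resolve_left (mul_ne_zero (pow_ne_zero _ hs0) (mul_ne_zero
      (mul_ne_zero n1 hNe) (pow_ne_zero _ n4)))
    have hmo : v.ord (m : K) = 0 := by
      have h1 := v.ord_base (m : k)
      rwa [map_natCast] at h1
    rw [v.ord_mul' (pow_ne_zero _ hs0) (mul_ne_zero (mul_ne_zero n1 hNe) (pow_ne_zero _ n4)),
      v.ord_pow, v.ord_mul' (pow_ne_zero _ hc0) hJ0, v.ord_pow,
      v.ord_mul' (mul_ne_zero n1 hNe) (pow_ne_zero _ n4), v.ord_mul' n1 hNe,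
      v.ord_mul' (zpow_ne_zero _ hc0) (pow_ne_zero _ hμ0), v.ord_zpow, v.ord_pow, v.ord_pow,
      v.ord_mul' n3 (mul_ne_zero n2 hPe), v.ord_mul' hmK hGt0,
      v.ord_mul' (pow_ne_zero _ hc0) hg0, v.ord_pow, v.ord_mul' n2 hPe,
      v.ord_mul' (zpow_ne_zero _ hc0) (pow_ne_zero _ hμ0), v.ord_zpow, v.ord_pow, hco, hμo,
      hmo] at hE'
    have hOo : v.ord Om = (2 * (n' + r * (w - 3)) : ℕ) * v.ord (aeval x J) + (v.ord EN +
        r * (v.ord g + v.ord EP)) := by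
      rw [hOm, v.ord_mul' (pow_ne_zero _ hJ0) (mul_ne_zero hNe (pow_ne_zero _
        (mul_ne_zero hmg0 hPe))), v.ord_pow, v.ord_mul' hNe (pow_ne_zero _
        (mul_ne_zero hmg0 hPe)), v.ord_pow, v.ord_mul' hmg0 hPe, v.ord_mul' hmK hg0, hmo, zero_add]
    rw [hOo]
    refine hE'.trans_eq ?_
    push_cast
    linear_combination (-(poleOrder v x : ℤ)) * hτ
  -- summation over all places
  obtain ⟨N0, hN0⟩ : ∃ N0 : ℕ, N0 = n' + r * (w - 3) := ⟨_, rfl⟩
  rw [← hN0] at hloc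
  have hN0' : (N0 : ℤ) = n - 3 * r := by
    rw [hN0, hn]
    push_cast [Nat.cast_sub hw3]
    ring
  obtain ⟨hfs, hfsum⟩ := pfm k K htr Om
  have hps := pfi k K htr (Fin 3) x
  have hds := Pool.Agent.H58.LV.dfi dor pfm rat k K htr D hD
  let T : Finset (DV k K) := hfs.toFinset ∪ hps.toFinset ∪ hds.toFinset ∪ S
  have e1 : ∑ᶠ v : DV k K, v.ord Om = ∑ v ∈ T, v.ord Om := by
    refine finsum_eq_sum_of_support_subset _ fun v hv => ?_
    have : v ∈ hfs.toFinset := hfs.mem_toFinset.2 hv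
    simp only [T, Finset.coe_union, Set.mem_union, Finset.mem_coe]
    exact Or.inl (Or.inl (Or.inl this))
  have e2 : (deg k x : ℤ) = ∑ v ∈ T, (poleOrder v x : ℤ) := by
    have h1 : deg k x = ∑ v ∈ T, poleOrder v x := by
      unfold deg
      refine finsum_eq_sum_of_support_subset _ fun v hv => ?_
      have : v ∈ hps.toFinset := hps.mem_toFinset.2 hv
      simp only [T, Finset.coe_union, Set.mem_union, Finset.mem_coe]
      exact Or.inl (Or.inl (Or.inr this))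
    rw [h1]
    push_cast
    rfl
  have e3 : canDeg D = - ∑ v ∈ T, ordD v D := by
    unfold canDeg
    congr 1
    refine finsum_eq_sum_of_support_subset _ fun v hv => ?_
    have : v ∈ hds.toFinset := hds.mem_toFinset.2 hv
    simp only [T, Finset.coe_union, Set.mem_union, Finset.mem_coe]
    exact Or.inl (Or.inr this)
  have e4 : (S.card : ℤ) = ∑ v ∈ T, (if v ∈ S then (1 : ℤ) else 0) := by
    rw [Finset.sum_ite_mem, Finset.inter_eq_right.2 Finset.subset_union_right]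
    simp
  have e5 := Finset.sum_nonneg fun v (_ : v ∈ T) => hloc v
  rw [Finset.sum_add_distrib, Finset.sum_add_distrib, ← Finset.mul_sum, ← Finset.mul_sum,
    Finset.sum_sub_distrib, ← e1, hfsum, ← e2, ← e4, hN0'] at e5
  have e6 : ∑ v ∈ T, ordD v D = - canDeg D := by rw [e3, neg_neg]
  rw [e6] at e5
  have e7 : (0 : ℤ) ≤ 6 * r * j0 * deg k x := by positivity
  linarith

end Pool.Agent.H21.SF
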