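import Pool.Agent.H3.SF.Tg2

/-!
# MP_70ba79_ag, THEOREM S: graded relations between rings, the substitution of the chart
-/

set_option autoImplicit false

namespace Pool.Agent.H21.SF

open MvPolynomial SC Pool.Agent.H27.LV
open Pool.Agent.H84.SM (dp cr dt)
open Pool.Agent.H92.SF Pool.Agent.H3.SF

/-- graded relation between two rings -/
structure Rl {A B : Type} [CommRing A] [CommRing B] (R : ℤ → A → B → Prop) : Prop where
  zero : ∀ d, R d 0 0
  one : R 0 1 1
  add : ∀ d a a' b b', R d a b → R d a' b' → R d (a + a') (b + b')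
  neg : ∀ d a b, R d a b → R d (-a) (-b)
  mul : ∀ d e a a' b b', R d a b → R e a' b' → R (d + e) (a * a') (b * b')

/-- change of the degree -/
lemma cst {A B : Type} {R : ℤ → A → B → Prop} {d e : ℤ} {a : A} {b : B} (h : R d a b)
    (he : d = e) : R e a b := he ▸ h

namespace Rl

variable {A B : Type} [CommRing A] [CommRing B] {R : ℤ → A → B → Prop} (h : Rl R)

include h

lemma sum {ι : Type} (s : Finset ι) (f : ι → A) (g : ι → B) (d : ℤ)
    (hf : ∀ i ∈ s, R d (f i) (g i)) : R d (∑ i ∈ s, f i) (∑ i ∈ s, g i) := by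
  classical
  induction s using Finset.induction_on with
  | empty => exact h.zero d
  | insert a s ha ih =>
    rw [Finset.sum_insert ha, Finset.sum_insert ha]
    exact h.add _ _ _ _ _ (hf a (Finset.mem_insert_self _ _))
      (ih fun i hi => hf i (Finset.mem_insert_of_mem hi))

lemma prod {ι : Type} (s : Finset ι) (f : ι → A) (g : ι → B) (d : ι → ℤ)
    (hf : ∀ i ∈ s, R (d i) (f i) (g i)) : R (∑ i ∈ s, d i) (∏ i ∈ s, f i) (∏ i ∈ s, g i) := by
  classical
  induction s using Finset.induction_on with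
  | empty => exact h.one
  | insert a s ha ih =>
    rw [Finset.prod_insert ha, Finset.prod_insert ha, Finset.sum_insert ha]
    exact h.mul _ _ _ _ _ _ (hf a (Finset.mem_insert_self _ _))
      (ih fun i hi => hf i (Finset.mem_insert_of_mem hi))

lemma pow {d : ℤ} {a : A} {b : B} (hab : R d a b) (r : ℕ) : R (r * d) (a ^ r) (b ^ r) := by
  induction r with
  | zero =>
    rw [pow_zero, pow_zero]
    exact cst h.one (by simp)
  | succ r ih =>
    rw [pow_succ, pow_succ]
    exact cst (h.mul _ _ _ _ _ _ ih hab) (by push_cast; ring)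

lemma sub {d : ℤ} {a a' : A} {b b' : B} (h1 : R d a b) (h2 : R d a' b') :
    R d (a - a') (b - b') := by
  rw [sub_eq_add_neg, sub_eq_add_neg]
  exact h.add _ _ _ _ _ h1 (h.neg _ _ _ h2)

lemma nat (n : ℕ) : R 0 (n : A) (n : B) := by
  induction n with
  | zero => rw [Nat.cast_zero, Nat.cast_zero]; exact h.zero 0
  | succ n ih =>
    rw [Nat.cast_succ, Nat.cast_succ]
    exact h.add _ _ _ _ _ ih h.one

end Rl

section Lift

variable {A B : Type} [CommRing A] [CommRing B] (R : ℤ → A → B → Prop)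

/-- lift to polynomials -/
def RP (β d : ℤ) (P : Polynomial A) (Q : Polynomial B) : Prop :=
  ∀ j : ℕ, R (d + β * j) (P.coeff j) (Q.coeff j)

/-- lift to polynomials in several variables -/
def RM {σ : Type} (α d : ℤ) (P : MvPolynomial σ A) (Q : MvPolynomial σ B) : Prop :=
  ∀ a : σ →₀ ℕ, R (d + α * (a.degree : ℕ)) (P.coeff a) (Q.coeff a)

variable {R}

theorem rP (h : Rl R) (β : ℤ) : Rl (RP R β) where
  zero := fun d j => by
    rw [Polynomial.coeff_zero, Polynomial.coeff_zero]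
    exact h.zero _
  one := fun j => by
    rw [Polynomial.coeff_one, Polynomial.coeff_one]
    by_cases hj : j = 0
    · subst hj
      rw [if_pos rfl, if_pos rfl]
      exact cst h.one (by simp)
    · rw [if_neg hj, if_neg hj]
      exact h.zero _
  add := fun d a a' b b' h1 h2 j => by
    rw [Polynomial.coeff_add, Polynomial.coeff_add]
    exact h.add _ _ _ _ _ (h1 j) (h2 j)
  neg := fun d a b h1 j => by
    rw [Polynomial.coeff_neg, Polynomial.coeff_neg]
    exact h.neg _ _ _ (h1 j)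
  mul := fun d e a a' b b' h1 h2 j => by
    rw [Polynomial.coeff_mul, Polynomial.coeff_mul]
    refine h.sum _ _ _ _ fun i hi => ?_
    refine cst (h.mul _ _ _ _ _ _ (h1 i.1) (h2 i.2)) ?_
    rw [← Finset.HasAntidiagonal.mem_antidiagonal.1 hi]
    push_cast
    ring

theorem rM {σ : Type} (h : Rl R) (α : ℤ) : Rl (RM (σ := σ) R α) where
  zero := fun d j => by
    rw [coeff_zero, coeff_zero]
    exact h.zero _
  one := fun j => by
    classical
    rw [coeff_one, coeff_one]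
    by_cases hj : 0 = j
    · subst hj
      rw [if_pos rfl, if_pos rfl]
      exact cst h.one (by simp)
    · rw [if_neg hj, if_neg hj]
      exact h.zero _
  add := fun d a a' b b' h1 h2 j => by
    rw [coeff_add, coeff_add]
    exact h.add _ _ _ _ _ (h1 j) (h2 j)
  neg := fun d a b h1 j => by
    rw [coeff_neg, coeff_neg]
    exact h.neg _ _ _ (h1 j)
  mul := fun d e a a' b b' h1 h2 j => by
    classical
    rw [coeff_mul, coeff_mul]
    refine h.sum _ _ _ _ fun i hi => ?_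
    refine cst (h.mul _ _ _ _ _ _ (h1 i.1) (h2 i.2)) ?_
    rw [← Finset.HasAntidiagonal.mem_antidiagonal.1 hi, map_add]
    push_cast
    ring

lemma rP_C (h : Rl R) (β : ℤ) {d : ℤ} {a : A} {b : B} (hab : R d a b) :
    RP R β d (Polynomial.C a) (Polynomial.C b) := fun j => by
  rw [Polynomial.coeff_C, Polynomial.coeff_C]
  by_cases hj : j = 0
  · subst hj
    rw [if_pos rfl, if_pos rfl]
    exact cst hab (by simp)
  · rw [if_neg hj, if_neg hj]
    exact h.zero _

lemma rM_C {σ : Type} (h : Rl R) (α : ℤ) {d : ℤ} {a : A} {b : B} (hab : R d a b) :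
    RM (σ := σ) R α d (C a) (C b) := fun j => by
  classical
  rw [coeff_C, coeff_C]
  by_cases hj : 0 = j
  · subst hj
    rw [if_pos rfl, if_pos rfl]
    exact cst hab (by simp)
  · rw [if_neg hj, if_neg hj]
    exact h.zero _

lemma rP_X (h : Rl R) (β : ℤ) : RP R β (-β) Polynomial.X Polynomial.X := fun j => by
  rw [Polynomial.coeff_X, Polynomial.coeff_X]
  by_cases hj : 1 = j
  · subst hj
    rw [if_pos rfl, if_pos rfl]
    exact cst h.one (by simp)
  · rw [if_neg hj, if_neg hj]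
    exact h.zero _

lemma rM_X {σ : Type} (h : Rl R) (α : ℤ) (i : σ) : RM (σ := σ) R α (-α) (X i) (X i) := fun j => by
  classical
  rw [MvPolynomial.coeff_X, MvPolynomial.coeff_X]
  by_cases hj : Finsupp.single i 1 = j
  · subst hj
    rw [if_pos rfl, if_pos rfl]
    exact cst h.one (by simp)
  · rw [if_neg hj, if_neg hj]
    exact h.zero _

/-- evaluation of polynomials -/
lemma rP_ev (h : Rl R) {A' B' : Type} [CommRing A'] [CommRing B'] (f : A' →+* A) (f' : B' →+* B)
    (e D : ℤ) (x : A) (x' : B) (hx : R e x x') (P : Polynomial A') (Q : Polynomial B')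
    (hP : ∀ j : ℕ, R (D - e * j) (f (P.coeff j)) (f' (Q.coeff j))) :
    R D (Polynomial.eval₂ f x P) (Polynomial.eval₂ f' x' Q) := by
  rw [Polynomial.eval₂_eq_sum_range' f (n := P.natDegree + Q.natDegree + 1) (by omega),
    Polynomial.eval₂_eq_sum_range' f' (n := P.natDegree + Q.natDegree + 1) (by omega)]
  refine h.sum _ _ _ _ fun j _ => ?_
  exact cst (h.mul _ _ _ _ _ _ (hP j) (h.pow hx j)) (by ring)

/-- evaluation of polynomials in several variables -/
lemma rM_ev (h : Rl R) {σ : Type} [Fintype σ] {A' B' : Type} [CommRing A'] [CommRing B']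
    (f : A' →+* A) (f' : B' →+* B)
    (e D : ℤ) (x : σ → A) (x' : σ → B) (hx : ∀ i, R e (x i) (x' i)) (P : MvPolynomial σ A')
    (Q : MvPolynomial σ B')
    (hP : ∀ a : σ →₀ ℕ, R (D - e * (a.degree : ℕ)) (f (P.coeff a)) (f' (Q.coeff a))) :
    R D (eval₂ f x P) (eval₂ f' x' Q) := by
  classical
  have e1 : eval₂ f x P = ∑ a ∈ P.support ∪ Q.support, f (P.coeff a) * ∏ i, x i ^ a i := by
    rw [eval₂_eq']
    refine Finset.sum_subset Finset.subset_union_left fun a _ ha => ?_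
    rw [notMem_support_iff.1 ha, map_zero, zero_mul]
  have e2 : eval₂ f' x' Q = ∑ a ∈ P.support ∪ Q.support, f' (Q.coeff a) * ∏ i, x' i ^ a i := by
    rw [eval₂_eq']
    refine Finset.sum_subset Finset.subset_union_right fun a _ ha => ?_
    rw [notMem_support_iff.1 ha, map_zero, zero_mul]
  rw [e1, e2]
  refine h.sum _ _ _ _ fun a _ => ?_
  refine cst (h.mul _ _ _ _ _ _ (hP a) (h.prod Finset.univ _ _ (fun i => (a i : ℤ) * e)
    fun i _ => h.pow (hx i) (a i))) ?_
  rw [← Finset.sum_mul, Finsupp.degree_eq_sum]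
  push_cast
  ring

end Lift

/-- the substitution of the chart preserves graded relations -/
theorem psi_rel {A B : Type} [CommRing A] [CommRing B] {R : ℤ → A → B → Prop} (h : Rl R)
    (m j0 : ℕ) (x g : Fin 3 → A) (x' g' : Fin 3 → B) (G : A) (G' : B) (H : Fin 3 → Fin 3 → A)
    (H' : Fin 3 → Fin 3 → B) (s : A) (s' : B) (hx : ∀ i, R 1 (x i) (x' i))
    (hg : ∀ i, R ((m : ℤ) - 1) (g i) (g' i)) (hG : R m G G')
    (hH : ∀ i j, R ((m : ℤ) - 2) (H i j) (H' i j)) (hs : R j0 s s') (n : ℕ) (τ : ℤ) (V : Q2 A)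
    (V' : Q2 B) (hV : ∀ (j : ℕ) (a : Fin 2 →₀ ℕ), 3 * j + a.degree = n →
      R (τ - 2 * n + 3 * j) ((V.coeff j).coeff a) ((V'.coeff j).coeff a))
    (hV0 : ∀ (j : ℕ) (a : Fin 2 →₀ ℕ), 3 * j + a.degree ≠ n →
      (V.coeff j).coeff a = 0 ∧ (V'.coeff j).coeff a = 0) :
    RP (RM R ((m : ℤ) - 2)) ((m : ℤ) - 3 - 6 * j0) (τ + 2 * n * j0) (Psi m x g G H s V)
      (Psi m x' g' G' H' s' V') := by
  obtain ⟨α, hα⟩ : ∃ α : ℤ, α = (m : ℤ) - 2 := ⟨_, rfl⟩
  obtain ⟨β, hβ⟩ : ∃ β : ℤ, β = (m : ℤ) - 3 - 6 * j0 := ⟨_, rfl⟩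
  rw [← hα, ← hβ]
  have hC : Rl (RP (RM (σ := Fin 3) R α) β) := rP (rM h α) β
  have hcc : ∀ (d : ℤ) (a : A) (b : B), R d a b →
      RP (RM (σ := Fin 3) R α) β d (cc a) (cc b) := fun d a b hab =>
    rP_C (rM h α) β (rM_C h α hab)
  have hrv : ∀ i, RP (RM (σ := Fin 3) R α) β (-α) (rv i) (rv i) := fun i =>
    rP_C (rM h α) β (rM_X h α i)
  have hzv : RP (RM (σ := Fin 3) R α) β (-β) (zv : C3 A) (zv : C3 B) := rP_X (rM h α) β
  have hmu : RP (RM (σ := Fin 3) R α) β (1 + -α) (muc x) (muc x') := by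
    unfold muc dp
    exact hC.sum _ _ _ _ fun i _ => hC.mul _ _ _ _ _ _ (hcc _ _ _ (hx i)) (hrv i)
  have hgr : ∀ i, RP (RM (σ := Fin 3) R α) β ((m : ℤ) - 1 + -α) (gxr g i) (gxr g' i) := fun i =>
    hC.sub (hC.mul _ _ _ _ _ _ (hcc _ _ _ (hg (i + 1))) (hrv (i + 2)))
      (hC.mul _ _ _ _ _ _ (hcc _ _ _ (hg (i + 2))) (hrv (i + 1)))
  have hmG : RP (RM (σ := Fin 3) R α) β m (cc (m * G)) (cc (m * G')) :=
    hcc _ _ _ (cst (h.mul _ _ _ _ _ _ (h.nat m) hG) (zero_add _))
  have hpc : ∀ i, RP (RM (σ := Fin 3) R α) β (2 * j0 + 2) (pc m x g G s i)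
      (pc m x' g' G' s' i) := by
    intro i
    unfold pc
    refine cst (hC.mul _ _ _ _ _ _ (hC.pow (hcc _ _ _ hs) 2) (hC.sub (d := (m : ℤ) + -α)
      (cst (hC.mul _ _ _ _ _ _ (hcc _ _ _ (hg i)) hmu) (by ring))
      (hC.mul _ _ _ _ _ _ hmG (hrv i)))) ?_
    rw [hα]
    push_cast
    ring
  have hwc : RP (RM (σ := Fin 3) R α) β (6 * j0 + 3) (wc m x g G H s) (wc m x' g' G' H' s') := by
    unfold wc
    refine hC.sub (cst (hC.mul _ _ _ _ _ _ hmG hzv) (by rw [hβ]; ring)) ?_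
    refine cst (hC.mul _ _ _ _ _ _ (hC.mul _ _ _ _ _ _ (hC.pow (hcc _ _ _ hs) 6)
      (hC.sum (d := (m : ℤ) - 2 + ((m : ℤ) - 1 + -α) + ((m : ℤ) - 1 + -α)) _ _ _ fun i _ =>
        hC.sum _ _ _ _ fun j _ => hC.mul _ _ _ _ _ _ (hC.mul _ _ _ _ _ _
          (hcc _ _ _ (hH i j)) (hgr i)) (hgr j))) hmu) ?_
    rw [hα]
    push_cast
    ring
  refine rP_ev hC _ _ (6 * j0 + 3) _ _ _ hwc V V' fun j => ?_
  refine rM_ev hC _ _ (2 * j0 + 2) _ _ _ ?_ _ _ fun a => ?_
  · intro i
    fin_cases i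
    · exact hpc 1
    · exact hpc 2
  · by_cases ha : 3 * j + a.degree = n
    · refine hcc _ _ _ (cst (hV j a ha) ?_)
      rw [← ha]
      push_cast
      ring
    · obtain ⟨h1, h2⟩ := hV0 j a ha
      rw [h1, h2, map_zero, map_zero]
      exact hC.zero _

end Pool.Agent.H21.SF
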