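import Pool.Agent.H21.SF.EVFa
import Pool.Agent.H16.SM.SCT

/-!
# MP_70ba79_ag, THEOREM S: values at a curve, scaled
-/

set_option autoImplicit false

namespace Pool.Agent.H21.SF

open MvPolynomial SC Pool.Agent.H27.LV
open Pool.Agent.H84.SM (dp cr dt)
open Pool.Agent.H92.SF Pool.Agent.H3.SF

section WH

variable {L : Type} [CommRing L]

lemma wh_zero {n : ℕ} {V : Q2 L} (h : WH n V) {j : ℕ} {a : Fin 2 →₀ ℕ}
    (ha : 3 * j + a.degree ≠ n) : (V.coeff j).coeff a = 0 := by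
  by_cases hj : 3 * j ≤ n
  · exact ((h j).1 hj).coeff_eq_zero (by omega)
  · rw [(h j).2 (by omega), coeff_zero]

lemma wh_of {n : ℕ} {V : Q2 L} (h : ∀ (j : ℕ) (a : Fin 2 →₀ ℕ), 3 * j + a.degree ≠ n →
    (V.coeff j).coeff a = 0) : WH n V := by
  refine fun j => ⟨fun hj a ha => ?_, fun hj => ?_⟩
  · have e : Finsupp.weight (1 : Fin 2 → ℕ) a = a.degree := by
      rw [Finsupp.degree_eq_weight_one]
      rfl
    rw [e]
    by_contra hne
    refine ha (h j a fun h1 => hne ?_)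
    omega
  · ext a
    rw [coeff_zero]
    exact h j a (by omega)

end WH

section Val

variable {k F K : Type} [Field k] [Field F] [Algebra k F] [Field K] [Algebra k K]
  {u : Fin 3 → F} {dd : Fin 3 → Derivation k F F} {φ : Bb k u →ₐ[k] K}

lemma vq_zero (hVLA : T_VLA) {n : ℕ} {τ : ℤ} {V : Q2 F} {W : Q2 K} (hV : Tw u dd n τ V)
    (hW : VQ u φ V W) {j : ℕ} {a : Fin 2 →₀ ℕ} (ha : 3 * j + a.degree ≠ n) :
    (W.coeff j).coeff a = 0 := by
  obtain ⟨h1, -, -, -, h5⟩ := hVLA k F K u φ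
  have h6 := hW j a
  rw [wh_zero hV.1 ha] at h6
  have h7 := h5 0
  rw [map_zero, map_zero] at h7
  exact h1 _ _ _ h6 h7

lemma vq_wh (hVLA : T_VLA) {n : ℕ} {τ : ℤ} {V : Q2 F} {W : Q2 K} (hV : Tw u dd n τ V)
    (hW : VQ u φ V W) : WH n W := wh_of fun _ _ ha => vq_zero hVLA hV hW ha

lemma tw_unique [CharZero k] {n n' : ℕ} {τ τ' : ℤ} {V : Q2 F} (h0 : V ≠ 0) (h : Tw u dd n τ V)
    (h' : Tw u dd n' τ' V) : n = n' ∧ τ = τ' := by
  have hcz : CharZero F := charZero_of_injective_algebraMap (algebraMap k F).injective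
  obtain ⟨j, hj⟩ : ∃ j, V.coeff j ≠ 0 := by
    by_contra hcon
    push Not at hcon
    exact h0 (Polynomial.ext fun j => by rw [hcon j, Polynomial.coeff_zero])
  obtain ⟨a, ha⟩ := ne_zero_iff.1 hj
  have e1 : 3 * j + a.degree = n := by
    by_contra hcon
    exact ha (wh_zero h.1 hcon)
  have e2 : 3 * j + a.degree = n' := by
    by_contra hcon
    exact ha (wh_zero h'.1 hcon)
  have e3 : n = n' := e1.symm.trans e2
  refine ⟨e3, ?_⟩
  have e4 := h.2 j a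
  have e5 := h'.2 j a
  unfold Hm at e4 e5
  rw [e4] at e5
  have e6 := Int.cast_injective (mul_right_cancel₀ ha e5)
  rw [e3] at e6
  linarith

variable (u dd φ) in
/-- `a` is homogeneous of degree `d`, `b` is the value of `a` multiplied by `c ^ d` -/
def Rv (c : K) (d : ℤ) (a : F) (b : K) : Prop := Hm k (eu u dd) d a ∧ Vl u φ a (c ^ (-d) * b)

theorem rV (hVLA : T_VLA) {c : K} (hc : c ≠ 0) : Rl (Rv u dd φ c) := by
  obtain ⟨-, h2, -, -, h5⟩ := hVLA k F K u φ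
  have h0 := h5 0
  have h1 := h5 1
  have hm := h5 (-1)
  rw [map_zero, map_zero] at h0
  rw [map_one, map_one] at h1
  rw [map_neg, map_neg, map_one, map_one] at hm
  refine ⟨fun d => ⟨?_, ?_⟩, ⟨?_, ?_⟩, ?_, ?_, ?_⟩
  · unfold Hm
    rw [map_zero, mul_zero]
  · rw [mul_zero]
    exact h0
  · unfold Hm
    rw [Derivation.map_one_eq_zero, Int.cast_zero, zero_mul]
  · rw [neg_zero, zpow_zero, mul_one]
    exact h1
  · rintro d a a' b b' ⟨ha, hb⟩ ⟨ha', hb'⟩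
    refine ⟨?_, ?_⟩
    · unfold Hm at *
      rw [map_add, ha, ha', mul_add]
    · rw [mul_add]
      exact (h2 _ _ _ _ hb hb').1
  · rintro d a b ⟨ha, hb⟩
    refine ⟨?_, ?_⟩
    · unfold Hm at *
      rw [map_neg, ha, mul_neg]
    · have := (h2 _ _ _ _ hm hb).2
      rwa [neg_one_mul, neg_one_mul, ← mul_neg] at this
  · rintro d e a a' b b' ⟨ha, hb⟩ ⟨ha', hb'⟩
    refine ⟨?_, ?_⟩
    · unfold Hm at *
      rw [Derivation.leibniz, ha, ha', smul_eq_mul, smul_eq_mul]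
      push_cast
      ring
    · have := (h2 _ _ _ _ hb hb').2
      have e1 : c ^ (-(d + e)) * (b * b') = c ^ (-d) * b * (c ^ (-e) * b') := by
        rw [neg_add, zpow_add₀ hc]
        ring
      rwa [e1]

lemma rv_of {c : K} (hc : c ≠ 0) {d : ℤ} {a : F} {b : K} (h1 : Hm k (eu u dd) d a)
    (h2 : Vl u φ a b) : Rv u dd φ c d a (c ^ d * b) := by
  refine ⟨h1, ?_⟩
  rw [← mul_assoc, ← zpow_add₀ hc, neg_add_cancel, zpow_zero, one_mul]
  exact h2

lemma rv_uniq (hVLA : T_VLA) {c : K} (hc : c ≠ 0) {d : ℤ} {a : F} {b b' : K}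
    (h : Rv u dd φ c d a b) (h' : Rv u dd φ c d a b') : b = b' := by
  obtain ⟨h1, -⟩ := hVLA k F K u φ
  exact mul_left_cancel₀ (zpow_ne_zero _ hc) (h1 _ _ _ h.2 h'.2)

/-- integral homogeneous elements have regular scaled values -/
lemma rv_reg [IsAlgClosed k] [CharZero k] (hVLI : T_VLI) {δ j0 c0 : ℕ}
    {J : MvPolynomial (Fin 3) k} (hs : Sfc u dd δ j0 c0 J) {x : Fin 3 → K}
    (hx : ∀ (i : Fin 3) (b : Bb k u), (b : F) = u i → φ b = x i) (hone : ∃ j, x j = 1)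
    (v : DV k K) {c : K} (hc : c ≠ 0) (hco : v.ord c = poleOrder v x) {d : ℤ} {a : F} {b : K}
    (h : Rv u dd φ c d a b) (ha : Itg k u a) : ge v 0 b := by
  by_cases hb : b = 0
  · exact Or.inl hb
  right
  have h1 := hVLI k F K u dd δ j0 c0 J hs φ x hx hone v d a _ ha h.1 h.2
    (mul_ne_zero (zpow_ne_zero _ hc) hb)
  unfold nv at h1
  rw [v.ord_mul' (zpow_ne_zero _ hc) hb, v.ord_zpow, hco] at h1
  linarith

/-- scaling of a polynomial -/
noncomputable def scq (c : K) (d : ℤ) (P : Q2 K) : Q2 K :=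
  cq (c ^ d) * P.comp (Polynomial.C (C (c ^ 3)) * Polynomial.X)

lemma scq_coeff {c : K} (hc : c ≠ 0) (d : ℤ) (P : Q2 K) (j : ℕ) (a : Fin 2 →₀ ℕ) :
    ((scq c d P).coeff j).coeff a = c ^ (d + 3 * j) * (P.coeff j).coeff a := by
  unfold scq cq
  rw [RingHom.comp_apply, Polynomial.coeff_C_mul, Polynomial.comp_C_mul_X_coeff, ← C_pow,
    coeff_C_mul, mul_comm (P.coeff j), coeff_C_mul, zpow_add₀ hc, ← pow_mul]
  have e : c ^ (3 * (j : ℤ)) = c ^ (3 * j) := by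
    rw [← zpow_natCast]
    push_cast
    rfl
  rw [e]
  ring

lemma scq_rel {c : K} (hc : c ≠ 0) {n : ℕ} {τ : ℤ} {V : Q2 F} {W : Q2 K} (hV : Tw u dd n τ V)
    (hW : VQ u φ V W) : RP (RM (Rv u dd φ c) 0) 3 (τ - 2 * n) V (scq c (τ - 2 * n) W) := by
  intro j a
  rw [scq_coeff hc]
  refine cst (rv_of hc (hV.2 j a) (hW j a)) ?_
  ring

end Val

end Pool.Agent.H21.SF
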